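import Pool.Agent.H320.GS.Cond
import Pool.Graph.R_pool_sql_team_seeded_1acbe0a2.Results.MP_0f25e6_al.OrderedCosets

/-!
The analytic zero divisor conjecture for groups with suitable `p`-adic closures, and for groups
which are locally built from them by order preserving actions.

Let a prime `π l` be chosen for every prime `l`. Let `G` act faithfully on a residually
torsion-free nilpotent group with abelianization `ℤ ^ n`, or embed in the outer automorphism group
of the free group of rank `n`, and let `M G` be the group of the matrices of the action on `ℤ ^ n`.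
Suppose that for all primes `l`, with `p = π l`, the prime `l` is `p` or does not divide the order
of `M G` modulo `p`, and the closure of `M G` in `GL_n (ℤ_p)` has no element of order `p` (or `p`
is larger than `n + 1`, or different from `l` and not too small). Then `α * f ≠ 0` for all nonzero
`α` in `ℂ[G]` and `f` in `ℓ²(G)`; all kernel dimensions of matrices over `ℂ[G]` are integers. The
same holds for subgroups of mapping class groups of surfaces with one boundary component, for the
norm one units of certain orders, and for products and free products with free groups. The final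
class contains moreover all groups `G` such that every nontrivial finitely generated subgroup is in
the class or acts nontrivially by order preserving maps on a totally ordered set.
-/

set_option autoImplicit false
open Classical
open scoped TensorProduct

namespace Pool.Agent.Results.MP_0f25e6_al.ClosuresAndOrders

/-- The conclusion of Q1 for the group `G`. -/
def NoAnalyticZeroDivisors (G : Type) [Group G] : Prop :=
  ∀ α : G →₀ ℂ, α ≠ 0 → ∀ f : G → ℂ, Memℓp f 2 → f ≠ 0 →
    ∃ g : G, ∑ k ∈ α.support, α k * f (k⁻¹ * g) ≠ 0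

/-- Residually torsion-free nilpotent groups. -/
def RTFN (N : Type) [Group N] : Prop :=
  ∀ x : N, x ≠ 1 → ∃ (L : Subgroup N) (_ : L.Normal), x ∉ L ∧ Group.IsNilpotent (N ⧸ L) ∧
    ∀ (y : N ⧸ L) (m : ℕ), m ≠ 0 → y ^ m = 1 → y = 1

/-- The closure of the set of the matrices `M g` in the matrices over the `p`-adic integers has no
element of order `p`. -/
def NoTorsion (p : ℕ) [Fact p.Prime] {G : Type} {n : ℕ} (M : G → Matrix (Fin n) (Fin n) ℤ) :
    Prop :=
  ∀ t ∈ closure (Set.range fun g => (M g).map (Int.cast : ℤ → ℤ_[p])), t ^ p = 1 → t = 1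

/-- The number of the matrices `M g` modulo `p`. -/
noncomputable def orderMod (p : ℕ) {G : Type} {n : ℕ} (M : G → Matrix (Fin n) (Fin n) ℤ) : ℕ :=
  Nat.card (Set.range fun g => (M g).map (Int.cast : ℤ → ZMod p))

/-- The condition at the primes `l` and `p = π l`: `l = p` or `l` does not divide the order of
`M G` modulo `p`, and the closure of `M G` in the matrices over the `p`-adic integers has no
element of order `p` or `n + 1 < p` or both `l ≠ p` and `n < l * (p - 1)`. -/
def Good (l p : ℕ) [Fact p.Prime] {G : Type} {n : ℕ} (M : G → Matrix (Fin n) (Fin n) ℤ) : Prop :=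
  (l = p ∨ ¬ l ∣ orderMod p M) ∧ (NoTorsion p M ∨ n + 1 < p ∨ (l ≠ p ∧ n < l * (p - 1)))

/-- The inner automorphisms of the free group of rank `n`. -/
def Inn (n : ℕ) : Subgroup (MulAut (FreeGroup (Fin n))) :=
  (MulAut.conj : FreeGroup (Fin n) →* MulAut (FreeGroup (Fin n))).range

instance (n : ℕ) : (Inn n).Normal :=
  inferInstanceAs (Pool.Agent.H371.SB.innS (FreeGroup (Fin n))).Normal

/-- The outer automorphism group of the free group of rank `n`. -/
abbrev Out (n : ℕ) : Type := MulAut (FreeGroup (Fin n)) ⧸ Inn n

/-- The exponent sums of an element of the free group. -/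
def expo (n : ℕ) : FreeGroup (Fin n) →* Multiplicative (Fin n → ℤ) :=
  FreeGroup.lift fun i => Multiplicative.ofAdd (Pi.single i 1)

/-- The element `[x_0, x_1] [x_2, x_3] ⋯` of the free group on `2 g` generators, where
`[x, y] = x y x⁻¹ y⁻¹`. -/
def bdry (g : ℕ) : FreeGroup (Fin (2 * g)) :=
  (List.ofFn fun i : Fin g =>
    FreeGroup.of (⟨2 * i, by omega⟩ : Fin (2 * g)) *
      FreeGroup.of (⟨2 * i + 1, by omega⟩ : Fin (2 * g)) *
      (FreeGroup.of (⟨2 * i, by omega⟩ : Fin (2 * g)))⁻¹ *
      (FreeGroup.of (⟨2 * i + 1, by omega⟩ : Fin (2 * g)))⁻¹).prod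

/-- The set `Z` is nondegenerate modulo `p`: for every nonzero homomorphism `χ : F → ℤ/p` there
are `z ∈ Z`, a homomorphism `ψ : F → ℤ/p` and a function `γ` with
`γ (x y) = γ x + γ y + χ x * ψ y` and `γ z ≠ 0`. -/
def Nondeg (p : ℕ) (F : Type) [Group F] (Z : Set F) : Prop :=
  ∀ χ : F → ZMod p, (∀ x y, χ (x * y) = χ x + χ y) → (∃ x, χ x ≠ 0) →
    ∃ z ∈ Z, ∃ ψ γ : F → ZMod p, (∀ x y, ψ (x * y) = ψ x + ψ y) ∧
      (∀ x y, γ (x * y) = γ x + γ y + χ x * ψ y) ∧ γ z ≠ 0

/-- The groups covered by the condition on closures, for a choice `π` of a prime `π l` for every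
prime `l`. -/
inductive Closed (π : ℕ → ℕ) : (G : Type) → [Group G] → Prop
  /-- `G` acts faithfully on a residually torsion-free nilpotent group `N` with abelianization
  `ℤ ^ n`, and `M g` is the matrix of the action of `g` on `ℤ ^ n` -/
  | act (N : Type) [Group N] (n : ℕ) (e : Abelianization N ≃* Multiplicative (Fin n → ℤ))
      (hN : RTFN N) (G : Type) [Group G] (α : G →* MulAut N) (hα : Function.Injective α)
      (M : G → Matrix (Fin n) (Fin n) ℤ)
      (hM : ∀ g x, Multiplicative.toAdd (e (Abelianization.of (α g x))) =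
        (M g).mulVec (Multiplicative.toAdd (e (Abelianization.of x))))
      (h : ∀ l : ℕ, l.Prime → ∀ [Fact (π l).Prime], Good l (π l) M) : Closed π G
  /-- `G` embeds in the outer automorphism group of the free group of rank `n`, and `M g` is the
  matrix of the action of `g` on `ℤ ^ n` -/
  | out (n : ℕ) (G : Type) [Group G] (α : G →* Out n) (hα : Function.Injective α)
      (M : G → Matrix (Fin n) (Fin n) ℤ)
      (hM : ∀ g (h : MulAut (FreeGroup (Fin n))), α g = QuotientGroup.mk h → ∀ x,
        Multiplicative.toAdd (expo n (h x)) =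
          (M g).mulVec (Multiplicative.toAdd (expo n x)))
      (h : ∀ l : ℕ, l.Prime → ∀ [Fact (π l).Prime], Good l (π l) M) : Closed π G
  /-- groups `G` of automorphisms of the free group of rank `n`; `M g` is the matrix of the action
  of `g` on `ℤ ^ n`, and `Z` a set of elements of the commutator subgroup fixed by `G` -/
  | fixing (n : ℕ) (G : Type) [Group G] (α : G →* MulAut (FreeGroup (Fin n)))
      (hα : Function.Injective α) (M : G → Matrix (Fin n) (Fin n) ℤ)
      (hM : ∀ g x, Multiplicative.toAdd (expo n (α g x)) =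
        (M g).mulVec (Multiplicative.toAdd (expo n x)))
      (Z : Set (FreeGroup (Fin n))) (hZ : ∀ z ∈ Z, z ∈ commutator (FreeGroup (Fin n)))
      (hfix : ∀ g, ∀ z ∈ Z, α g z = z)
      (h : ∀ l : ℕ, l.Prime → ∀ [Fact (π l).Prime],
        (π l = l ∧ Nondeg l (FreeGroup (Fin n)) Z) ∨ Good l (π l) M) : Closed π G
  /-- subgroups of mapping class groups of surfaces with one boundary component -/
  | surface (hid : ∀ l : ℕ, l.Prime → π l = l) (g : ℕ) (G : Type) [Group G]
      (α : G →* MulAut (FreeGroup (Fin (2 * g)))) (hα : Function.Injective α)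
      (hfix : ∀ x, α x (bdry g) = bdry g) : Closed π G
  /-- `R` is an order of odd rank `N` without zero divisors over `ℤ_p`, `p ≤ N + 1`, and `G`
  embeds in the group of the units of `R` of norm one -/
  | order (hid : ∀ l : ℕ, l.Prime → π l = l) (R : Type) [Ring R] (N : ℕ) (e : R ≃+ (Fin N → ℤ))
      (hN : Odd N)
      (hR : ∀ (p : ℕ) [Fact p.Prime], p ≤ N + 1 → NoZeroDivisors (ℤ_[p] ⊗[ℤ] R))
      (G : Type) [Group G] (φ : G →* Rˣ) (hφ : Function.Injective φ)
      (hdet : ∀ g, LinearMap.det (LinearMap.mulLeft ℤ ((φ g : Rˣ) : R)) = 1) : Closed π G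
  /-- subgroups -/
  | sub (G H : Type) [Group G] [Group H] (f : H →* G) (hf : Function.Injective f)
      (hG : Closed π G) : Closed π H
  /-- direct products -/
  | prod (G H : Type) [Group G] [Group H] (hG : Closed π G) (hH : Closed π H) : Closed π (G × H)
  /-- free products with free groups -/
  | free (G : Type) [Group G] (m : ℕ) (hG : Closed π G) :
      Closed π (Monoid.Coprod G (FreeGroup (Fin m)))

/-- The group acts on some totally ordered set by order preserving maps, not all of which are the
identity. -/
def Acts (G : Type) [Group G] : Prop :=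
  ∃ (Ω : Type) (_ : LinearOrder Ω) (_ : MulAction G Ω),
    (∀ (g : G) (x y : Ω), x ≤ y → g • x ≤ g • y) ∧ ∃ (g : G) (ω : Ω), g • ω ≠ ω

/-- The groups covered by the theorem. -/
inductive Cls : (G : Type) → [Group G] → Prop
  /-- the groups of the first class, for any choice of primes -/
  | closed (π : ℕ → ℕ) (hπ : ∀ l : ℕ, l.Prime → (π l).Prime) (G : Type) [Group G]
      (h : Closed π G) : Cls G
  /-- subgroups -/
  | sub (G H : Type) [Group G] [Group H] (f : H →* G) (hf : Function.Injective f)
      (hG : Cls G) : Cls H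
  /-- a totally ordered set with an order preserving transitive action and stabilizers in the
  class, for example `G / H` for a normal subgroup `H` with left orderable quotient -/
  | cosets (G : Type) [Group G] (H : Subgroup G) (o : LinearOrder (G ⧸ H))
      (ho : ∀ (g : G) (a b : G ⧸ H), a ≤ b → g • a ≤ g • b) (hH : Cls H) : Cls G
  /-- all nontrivial finitely generated subgroups act nontrivially on totally ordered sets or are
  in the class -/
  | locally (G : Type) [Group G]
      (h : ∀ K : Subgroup G, K.FG → K ≠ ⊥ → ¬ Acts K → Cls K) : Cls G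

open Pool.Agent.H371.SB Pool.Agent.H320.TF in
theorem expo_eq (n : ℕ) (x : FreeGroup (Fin n)) : expo n x = eF n (Abelianization.of x) := by
  have h : expo n = (eF n).toMonoidHom.comp Abelianization.of := by
    refine FreeGroup.ext_hom _ _ fun i => ?_
    rw [expo, FreeGroup.lift_apply_of]
    apply Multiplicative.toAdd.injective
    change Pi.single i 1 = (Finsupp.linearEquivFunOnFinite ℤ ℤ (Fin n))
      ((FreeAbelianGroup.equivFinsupp (Fin n)) (FreeAbelianGroup.of i))
    rw [show (FreeAbelianGroup.equivFinsupp (Fin n)) (FreeAbelianGroup.of i) = Finsupp.single i 1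
      from FreeAbelianGroup.toFinsupp_of i]
    funext j
    simp [Finsupp.single_apply, Pi.single_apply, eq_comm]
  rw [h]
  rfl

theorem comm_zero {p : ℕ} {F : Type} [Group F] {z : F} (hz : z ∈ commutator F) (ψ : F → ZMod p)
    (hψ : ∀ x y, ψ (x * y) = ψ x + ψ y) : ψ z = 0 := by
  let f : F →* Multiplicative (ZMod p) :=
    { toFun := fun x => Multiplicative.ofAdd (ψ x)
      map_one' := by
        have := hψ 1 1
        rw [mul_one] at this
        have h0 : ψ 1 = 0 := by simpa using this
        rw [h0]; rfl
      map_mul' := fun x y => by rw [hψ]; rfl }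
  have h1 : f z = 1 := Abelianization.commutator_subset_ker f hz
  exact h1

open Pool.Agent.H371.SB Pool.Agent.H320.TF Pool.Agent.H320.PG Pool.Agent.H371.SE in
theorem cp {π : ℕ → ℕ} (hπ : ∀ l : ℕ, l.Prime → (π l).Prime) {G : Type} [Group G]
    (h : Closed π G) : CP π G 1 := by
  induction h with
  | act N n e hN G α hα M hM h =>
    refine ⟨one_pos, fun l hl => ?_⟩
    have : Fact (π l).Prime := ⟨hπ l hl⟩
    exact ⟨inferInstance, good_aut l (π l) hl e hN α hα M hM (h l hl)⟩
  | out n G α hα M hM h =>
    refine ⟨one_pos, fun l hl => ?_⟩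
    have : Fact (π l).Prime := ⟨hπ l hl⟩
    refine ⟨inferInstance, good_out l (π l) hl n α hα M ?_ (h l hl)⟩
    intro g h hh x
    rw [← expo_eq, ← expo_eq]
    exact hM g h hh x
  | fixing n G α hα M hM Z hZ hfix h =>
    refine ⟨one_pos, fun l hl => ?_⟩
    have : Fact (π l).Prime := ⟨hπ l hl⟩
    refine ⟨inferInstance, ?_⟩
    have hfl : Fact l.Prime := ⟨hl⟩
    rcases h l hl with h1 | h1
    · obtain ⟨p, hp⟩ : ∃ p, p = π l := ⟨_, rfl⟩
      have h2 := h1.1
      have key : ∃ c q : ℕ, GS l c q G ∧ ∃ r : ℕ, ¬ l ∣ r ∧ q * c ∣ r * 1 :=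
        data_of_GR l 1 (GR.of_nd l α hα Z ⟨fun z hz ψ hψ => comm_zero (hZ z hz) ψ hψ, h1.2⟩ hfix)
          (fun h => hl.one_lt.ne' (Nat.dvd_one.1 h))
      have gen : ∀ (p : ℕ) (i : Fact p.Prime), p = l →
          ∃ c q : ℕ, GS p c q G ∧ ∃ r : ℕ, ¬ l ∣ r ∧ q * c ∣ r * 1 := by
        intro p i hpl
        subst hpl
        exact key
      exact gen (π l) inferInstance h2
    · refine good_aut l (π l) hl (eF n) (free_rtfn n) α hα M ?_ h1
      intro g x
      rw [← expo_eq, ← expo_eq]
      exact hM g x
  | surface hid g G α hα hfix =>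
    refine CP.of_CR hid (CR.of_nd α hα {bdry g} (fun p _ => nd_surf p g (bdry g) ?_) ?_)
    · have : bdry g = surf g := rfl
      rw [this, mul_inv_cancel]
      exact one_mem _
    · intro x z hz
      rw [Set.mem_singleton_iff.1 hz]
      exact hfix x
  | order hid R N e hN hR G φ hφ hdet => exact CP.of_CR hid (CR.order e hN hR φ hφ hdet)
  | sub G H f hf hG ih => exact CP.sub f hf ih
  | prod G H hG hH ih ih' => exact CP.prod ih ih'
  | free G m hG ih => exact CP.free m ih

/-- **The analytic zero divisor conjecture** for all groups `G` of the class `Cls`: `α * f ≠ 0` for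
all nonzero `α` in `ℂ[G]` and all nonzero `f` in `ℓ²(G)`. -/
theorem result : ∀ (G : Type) [Group G], Cls G → NoAnalyticZeroDivisors G := by
  intro G _ hG
  induction hG with
  | closed π hπ G h =>
    refine Pool.Agent.H320.PG.azd_of_int fun v hv => ?_
    obtain ⟨z, hz⟩ := (cp hπ h).main v hv
    exact ⟨z, by rw [← hz]; simp⟩
  | sub G H f hf hG ih => exact Pool.Agent.H320.PG.azd_of_injective f hf ih
  | cosets G H o ho hH ih =>
    refine (OrderedCosets.result.{0, 0}).2 G ?_
    intro K hK hKne
    by_cases hact : ∃ (k : K) (ω : G ⧸ H), k • ω ≠ ω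
    · exact Or.inr ⟨G ⧸ H, o, inferInstance, fun g x y hxy => ho g x y hxy, hact⟩
    · left
      push Not at hact
      have hle : ∀ k : K, (k : G) ∈ H := by
        intro k
        have h1 : ((k : G) • ((1 : G) : G ⧸ H)) = ((1 : G) : G ⧸ H) := hact k ((1 : G) : G ⧸ H)
        have h2 : (((k : G) * 1 : G) : G ⧸ H) = ((1 : G) : G ⧸ H) := h1
        rw [mul_one] at h2
        have h3 := QuotientGroup.eq.1 h2
        rw [mul_one] at h3
        exact inv_mem_iff.1 h3
      let f : K →* H := K.subtype.codRestrict H hle
      have hf : Function.Injective f := fun a b hab =>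
        Subtype.ext (congrArg (fun w : H => (w : G)) hab)
      exact Pool.Agent.H320.PG.azd_of_injective f hf ih
  | locally G h ih =>
    refine (OrderedCosets.result.{0, 0}).2 G ?_
    intro K hK hKne
    by_cases hact : Acts K
    · exact Or.inr hact
    · exact Or.inl (ih K hK hKne hact)

end Pool.Agent.Results.MP_0f25e6_al.ClosuresAndOrders
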