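import Pool.Agent.H320.DA.Fin
import Pool.Agent.H320.DA.RUA
import Pool.Agent.H320.DA.RUB
import Pool.Agent.H320.DA.RED
import Pool.Agent.H320.DA.TEI
import Pool.Agent.H320.DA.LAT
import Pool.Agent.H320.DA.BND
import Pool.Agent.H320.DA.SCA
import Pool.Agent.H320.DA.DSC
import Pool.Agent.H320.DA.FGE
import Pool.Agent.H320.DA.RSC
import Pool.Agent.H320.DA.DEGP
import Pool.Agent.H320.DA.EXT
import Pool.Agent.H320.DA.MULT
import Pool.Graph.R_pool_sql_team_seeded_1acbe0a2.Results.MP_0f25e6_al.OrderedCosets

/-!
# The strong Atiyah and the analytic zero divisor conjecture for division algebras and for linear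
# groups with good places

Let `G` be a group. Suppose that for each prime `l` there are a field `K` of characteristic zero, a
number `e` and an embedding of `G` in `GL_N (K)` such that all elements of `G` have degree at most
`e` over `K` (degree of the minimal polynomial, for instance `e = N`) and either the roots of unity
of order `l` have degree larger than `e` over `K` (for `K = ℚ` this means `e + 1 < l`) or there is
a good place: a prime `q` and an embedding of `K` in a finite extension `L` of `ℚ_q` such that the
closure of `G` in `GL_N (L)` is compact and has no elements of order `l` or `q`. Then all kernel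
dimensions of matrices over `ℂ[G]` are integers, and `α * f ≠ 0` for all nonzero `α` in `ℂ[G]` and
`f` in `ℓ²(G)`. In the first case we use an auxiliary prime `p` at which `G` (a finitely generated
group) is integral and whose order modulo `l` is larger than `e`; it exists by theorems of Hilbert
and Chebotarev. Both conclusions pass to extensions: the first one to extensions with amenable
ordered quotients, the second one to all groups acting on totally ordered sets with stabilizers in
the class.

In particular both hold for the groups of the elements of positive norm of division algebras `D` of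
odd dimension over `ℚ` which have a good place for each small `l`, for instance for all central
division algebras of odd prime degree `n` over `ℚ` which are ramified at some prime `q` with `q ≢ 1`
modulo `n`. (If `D` is central of odd degree, the group of the elements of positive norm has index
two in the multiplicative group, the other coset being that of `-1`.)
-/

set_option autoImplicit false
open Classical
open scoped TensorProduct

namespace Pool.Agent.Results.MP_0f25e6_al.GoodPlaces

/-- The conclusion of Q1 for the group `G`. -/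
def NoAnalyticZeroDivisors (G : Type) [Group G] : Prop :=
  ∀ α : G →₀ ℂ, α ≠ 0 → ∀ f : G → ℂ, Memℓp f 2 → f ≠ 0 →
    ∃ g : G, ∑ k ∈ α.support, α k * f (k⁻¹ * g) ≠ 0

/-- The von Neumann dimension of the kernel of right multiplication by `A` on `ℓ²(G)^m`: the sum
over `i` of `1 - dist(δ_(i,1), kernel)²`. -/
noncomputable def kdim {G : Type} [Group G] {m n : ℕ} (A : Matrix (Fin m) (Fin n) (G →₀ ℂ)) : ℝ :=
  ∑ i : Fin m,
    (1 - (Metric.infDist
      (lp.single 2 (i, (1 : G)) (1 : ℂ) : lp (fun _ : Fin m × G => ℂ) 2)
      {x : lp (fun _ : Fin m × G => ℂ) 2 | ∀ (j : Fin n) (g : G),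
        ∑ i' : Fin m, (A i' j).sum (fun h c => x (i', g * h⁻¹) * c) = 0}) ^ 2)

/-- The strong Atiyah conjecture for the torsion-free group `G`, over `ℂ`. -/
def Atiyah (G : Type) [Group G] : Prop :=
  ∀ (m n : ℕ) (A : Matrix (Fin m) (Fin n) (G →₀ ℂ)), ∃ z : ℤ, kdim A = z

/-- The roots of unity of order `l` have degree at most `e` over `K`. -/
def Small (K : Type) [Field K] (e l : ℕ) : Prop :=
  ∃ ζ : AlgebraicClosure K, IsPrimitiveRoot ζ l ∧ (minpoly K ζ).natDegree ≤ e

/-- There is an embedding `σ` of `K` in a finite extension `L` of `ℚ_q` such that the group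
`σ (f G)` is bounded and its closure in the matrices over `L` has no elements of order `l` or
`q`. -/
def GoodPlace (K : Type) [Field K] (l q : ℕ) [Fact q.Prime] {N : ℕ} {G : Type} [Group G]
    (f : G →* (Matrix (Fin N) (Fin N) K)ˣ) : Prop :=
  ∃ (L : Type) (_ : NontriviallyNormedField L) (_ : NormedAlgebra ℚ_[q] L)
    (_ : FiniteDimensional ℚ_[q] L) (σ : K →+* L),
    (∃ C : ℝ, ∀ g i j, ‖σ (((f g : (Matrix (Fin N) (Fin N) K)ˣ) : Matrix (Fin N) (Fin N) K) i j)‖
      ≤ C) ∧
    ∀ t ∈ closure (Set.range fun g =>
      ((f g : (Matrix (Fin N) (Fin N) K)ˣ) : Matrix (Fin N) (Fin N) K).map σ),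
        (t ^ l = 1 ∨ t ^ q = 1) → t = 1

/-- The condition at the prime `l`, for a field `K`, a prime `q` and a number `e`: the linear groups
over `K` with elements of degree at most `e` and, if `l` is small for `K` and `e`, with a good place
at `q` for `l`; and the groups built from them. -/
inductive Loc (l : ℕ) (K : Type) [Field K] (q e : ℕ) : (G : Type) → [Group G] → Prop
  /-- linear groups -/
  | mat (N : ℕ) (G : Type) [Group G] (f : G →* (Matrix (Fin N) (Fin N) K)ˣ)
      (hf : Function.Injective f)
      (he : ∀ g, (minpoly K ((f g : (Matrix (Fin N) (Fin N) K)ˣ) :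
        Matrix (Fin N) (Fin N) K)).natDegree ≤ e)
      (h : Small K e l → ∀ [Fact q.Prime], GoodPlace K l q f) :
      Loc l K q e G
  /-- subgroups -/
  | sub (G H : Type) [Group G] [Group H] (f : H →* G) (hf : Function.Injective f)
      (hG : Loc l K q e G) : Loc l K q e H
  /-- direct products -/
  | prod (G H : Type) [Group G] [Group H] (hG : Loc l K q e G) (hH : Loc l K q e H) :
      Loc l K q e (G × H)
  /-- free products with free groups -/
  | free (G : Type) [Group G] (m : ℕ) (hG : Loc l K q e G) :
      Loc l K q e (Monoid.Coprod G (FreeGroup (Fin m)))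

/-- Amenability, in the form of Følner's condition: for every finite set `T` and `ε > 0` there is a
nonempty finite set `C` such that `T C` has at most `(1 + ε) |C|` elements. -/
def Amenable (Q : Type) [Group Q] : Prop := ∀ (T : Finset Q) (ε : ℝ), 0 < ε →
  ∃ C : Finset Q, C.Nonempty ∧ (((T ×ˢ C).image (fun p => p.1 * p.2)).card : ℝ) ≤ (1 + ε) * C.card

/-- The groups for which the Atiyah conjecture is proved. -/
inductive At : (G : Type) → [Group G] → Prop
  /-- the groups which satisfy the condition at each prime `l`, for some field `K` of characteristic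
  zero, some prime `q` and some `e` (which may depend on `l`) -/
  | lin (G : Type) [Group G] (h : ∀ l : ℕ, l.Prime → ∃ (K : Type) (_ : Field K) (_ : CharZero K)
      (q e : ℕ), q.Prime ∧ Loc l K q e G) : At G
  /-- subgroups -/
  | sub (G H : Type) [Group G] [Group H] (f : H →* G) (hf : Function.Injective f)
      (hG : At G) : At H
  /-- extensions with amenable left ordered quotients -/
  | ext (G : Type) [Group G] (N : Subgroup G) [N.Normal] (o : LinearOrder (G ⧸ N))
      (ho : ∀ (g : G) (a b : G ⧸ N), a ≤ b → g • a ≤ g • b) (ham : Amenable (G ⧸ N))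
      (hN : At N) : At G
  /-- all finitely generated subgroups are in the class -/
  | locally (G : Type) [Group G] (h : ∀ K : Subgroup G, K.FG → At K) : At G

/-- The group acts on some totally ordered set by order preserving maps, not all of which are the
identity. -/
def Acts (G : Type) [Group G] : Prop :=
  ∃ (Ω : Type) (_ : LinearOrder Ω) (_ : MulAction G Ω),
    (∀ (g : G) (x y : Ω), x ≤ y → g • x ≤ g • y) ∧ ∃ (g : G) (ω : Ω), g • ω ≠ ω

/-- The groups for which the analytic zero divisor conjecture is proved. -/
inductive Cls : (G : Type) → [Group G] → Prop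
  /-- the groups of the class `At` -/
  | base (G : Type) [Group G] (h : At G) : Cls G
  /-- subgroups -/
  | sub (G H : Type) [Group G] [Group H] (f : H →* G) (hf : Function.Injective f)
      (hG : Cls G) : Cls H
  /-- a totally ordered set with an order preserving transitive action and stabilizers in the
  class, for example `G / H` for a normal subgroup `H` with left orderable quotient -/
  | cosets (G : Type) [Group G] (H : Subgroup G) (o : LinearOrder (G ⧸ H))
      (ho : ∀ (g : G) (a b : G ⧸ H), a ≤ b → g • a ≤ g • b) (hH : Cls H) : Cls G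
  /-- all nontrivial finitely generated subgroups act nontrivially on totally ordered sets or are
  in the class -/
  | locally (G : Type) [Group G]
      (h : ∀ K : Subgroup G, K.FG → K ≠ ⊥ → ¬ Acts K → Cls K) : Cls G

/-- The group of the units of `D` of positive norm: the determinant of the left multiplication by
the unit is positive. -/
def Pos (D : Type) [DivisionRing D] [Algebra ℚ D] : Subgroup Dˣ := Pool.Agent.H320.DA.Pos D

theorem mem_Pos {D : Type} [DivisionRing D] [Algebra ℚ D] (x : Dˣ) :
    x ∈ Pos D ↔ 0 < LinearMap.det (LinearMap.mulLeft ℚ (x : D)) := Iff.rfl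

/-- The condition at the prime `q` for the prime `l` and a division algebra of dimension `N`. -/
def Local (q l N : ℕ) : Prop :=
  q = l ∨ ¬ orderOf (q : ZMod l) ∣ N ∨ (orderOf (q : ZMod l) = 1 ∧ ¬ l ∣ N)

open Pool.Agent.H320.DA in
theorem ul {l : ℕ} (hl : l.Prime) {K : Type} [Field K] [CharZero K] {q : ℕ} (hq : q.Prime) {e : ℕ}
    {G : Type} [Group G] (h : Loc l K q e G) : UL l K q e G := by
  induction h with
  | mat N G f hf he h => exact UL.mat tei lat rub red dsc fge rsc hl hq f hf he h
  | sub G H f hf hG ih => exact UL.sub f hf ih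
  | prod G H hG hH ih ih' => exact UL.prod hl ih ih'
  | free G m hG ih => exact UL.free m ih

theorem av : ∀ (G : Type) [Group G], At G → Pool.Agent.H320.DA.AV G := by
  intro G _ hG
  induction hG with
  | lin G h =>
    refine fun v hv => Pool.Agent.H320.DA.UL.main (fun l hl => ?_) v hv
    obtain ⟨K, i1, i2, q, e, hq, h1⟩ := h l hl
    exact ⟨K, i1, i2, q, e, ul hl hq h1⟩
  | sub G H f hf hG ih => exact ih.of_inj f hf
  | ext G N o ho ham hN ih => exact Pool.Agent.H320.DA.AV.ext N o ho ham ih
  | locally G h ih => exact Pool.Agent.H320.DA.AV.of_fg ih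

theorem main : ∀ (G : Type) [Group G], Cls G → NoAnalyticZeroDivisors G := by
  intro G _ hG
  induction hG with
  | base G h => exact Pool.Agent.H320.PG.azd_of_int (av G h)
  | sub G H f hf hG ih => exact Pool.Agent.H320.PG.azd_of_injective f hf ih
  | cosets G H o ho hH ih =>
    refine (OrderedCosets.result.{0, 0}).2 G ?_
    intro K hK hKne
    by_cases hact : ∃ (k : K) (ω : G ⧸ H), k • ω ≠ ω
    · exact Or.inr ⟨G ⧸ H, o, inferInstance, fun g x y hxy => ho g x y hxy, hact⟩
    · left
      push Not at hact
      have hle : ∀ k : K, (k : G) ∈ H := by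
        intro k
        have h1 : ((k : G) • ((1 : G) : G ⧸ H)) = ((1 : G) : G ⧸ H) := hact k ((1 : G) : G ⧸ H)
        have h2 : (((k : G) * 1 : G) : G ⧸ H) = ((1 : G) : G ⧸ H) := h1
        rw [mul_one] at h2
        have h3 := QuotientGroup.eq.1 h2
        rw [mul_one] at h3
        exact inv_mem_iff.1 h3
      let f : K →* H := K.subtype.codRestrict H hle
      have hf : Function.Injective f := fun a b hab =>
        Subtype.ext (congrArg (fun w : H => (w : G)) hab)
      exact Pool.Agent.H320.PG.azd_of_injective f hf ih
  | locally G h ih =>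
    refine (OrderedCosets.result.{0, 0}).2 G ?_
    intro K hK hKne
    by_cases hact : Acts K
    · exact Or.inr hact
    · exact Or.inl (ih K hK hKne hact)

theorem atiyah (G : Type) [Group G] (h : At G) : Atiyah G := by
  intro m n A
  obtain ⟨z, hz⟩ := Pool.Agent.H320.PG.kd_int_of (d := 1) (G := G) (fun v hv => by
    obtain ⟨z, hz⟩ := av G h v hv
    exact ⟨z, by rw [← hz]; simp⟩) m n A
  exact ⟨z, by rw [← hz]; simp [kdim, Pool.Agent.H371.SB.kd]⟩

open Pool.Agent.H320.DA in
theorem div (D : Type) [DivisionRing D] [Algebra ℚ D] [FiniteDimensional ℚ D] (e : ℕ)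
    (hN : Odd (Module.finrank ℚ D)) (he : ∀ x : D, (minpoly ℚ x).natDegree ≤ e)
    (h : ∀ l : ℕ, l.Prime → l ≤ e + 1 → ∃ (q : ℕ) (_ : Fact q.Prime),
      NoZeroDivisors (ℚ_[q] ⊗[ℚ] D) ∧ Local q l (Module.finrank ℚ D)) : At (Pos D) := by
  obtain ⟨π, hπ, f, hf, he', h'⟩ := exists_rep rua sca lat bnd D e hN he h
  exact At.ext (Pool.Agent.H320.DA.Pos D) (nPos D).ker (ordC D) (fun g a b hab => ordC_smul D g a b hab)
    (amenable_quot (nPos D)) (At.lin _ fun l hl => ⟨ℚ, inferInstance, inferInstance, π l, e, hπ l hl,
      Loc.mat _ _ f hf he' (h' l hl)⟩)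

open Pool.Agent.H320.DA in
/-- (1) **The strong Atiyah conjecture** for the groups of the class `At`. (2) **The analytic zero
divisor conjecture** for the groups of the class `Cls`, which contains `At`. (3) In particular both
hold for the group of the elements of positive norm of a division algebra of odd dimension over `ℚ`
whose elements have degree at most `e`, if for each prime `l ≤ e + 1` there is a prime `q` with
`Local q l (dim D)` such that `ℚ_q ⊗ D` is a division algebra. (4) This applies to all central
division algebras of odd prime degree `n` over `ℚ` such that `ℚ_q ⊗ D` is a division algebra for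
some prime `q` with `q ≢ 1` modulo `n`. -/
theorem result : (∀ (G : Type) [Group G], At G → Atiyah G) ∧
    (∀ (G : Type) [Group G], Cls G → NoAnalyticZeroDivisors G) ∧
    (∀ (D : Type) [DivisionRing D] [Algebra ℚ D] [FiniteDimensional ℚ D] (e : ℕ),
      Odd (Module.finrank ℚ D) → (∀ x : D, (minpoly ℚ x).natDegree ≤ e) →
      (∀ l : ℕ, l.Prime → l ≤ e + 1 → ∃ (q : ℕ) (_ : Fact q.Prime),
        NoZeroDivisors (ℚ_[q] ⊗[ℚ] D) ∧ Local q l (Module.finrank ℚ D)) →
      Atiyah (Pos D) ∧ NoAnalyticZeroDivisors (Pos D)) ∧
    (∀ (n q : ℕ) [Fact q.Prime] (D : Type) [DivisionRing D] [Algebra ℚ D] [Algebra.IsCentral ℚ D],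
      n.Prime → n ≠ 2 → Module.finrank ℚ D = n ^ 2 → NoZeroDivisors (ℚ_[q] ⊗[ℚ] D) →
      ¬ n ∣ q - 1 → Atiyah (Pos D) ∧ NoAnalyticZeroDivisors (Pos D)) := by
  refine ⟨atiyah, main, fun D _ _ _ e hN he h => ?_,
    fun n q _ D _ _ _ hn hn2 hdim hE hqn => ?_⟩
  · have h1 := div D e hN he h
    exact ⟨atiyah _ h1, main _ (Cls.base _ h1)⟩
  · obtain ⟨h1, h2, h3, h4⟩ := prime_deg degp hn hn2 D hdim hE hqn
    have h5 := div D n h2 h3 h4
    exact ⟨atiyah _ h5, main _ (Cls.base _ h5)⟩

end Pool.Agent.Results.MP_0f25e6_al.GoodPlaces
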