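import Pool.Agent.H320.GS.Azd
import Pool.Agent.H371.PM.Q19
import Pool.Graph.R_pool_sql_team_seeded_1acbe0a2.Results.MP_0f25e6_al.OrderedCosets

/-!
The analytic zero divisor conjecture for mapping class groups with many fixed punctures.

Let `F` be the free group on `x_0, …, x_(2g-1)` and `z_0, …, z_(r-1)`, the fundamental group of
the surface of genus `g` with `r + 1` punctures, the last peripheral element being
`∂ = ∏ [x_(2i), x_(2i+1)] ∏ z_j`. The automorphisms of `F` mapping `∂` to a conjugate and each
`z_j` to a conjugate of some `z_j'` form the group of mapping classes of the surface of genus `g`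
with `r + 2` punctures fixing two of the punctures (the base point and `∂`). If a group `G` of such
mapping classes fixes at least `2 g + 3` punctures, then `α * f ≠ 0` for all nonzero `α` in `ℂ[G]`
and `f` in `ℓ²(G)`. In particular this holds for all torsion-free pure mapping class groups of
surfaces with punctures. The same is proved for the automorphisms fixing `∂` and mapping each `z_j`
to a conjugate of some `z_j'` (the mapping class group of the surface of genus `g` with one boundary
component and `r` punctures, which may be permuted), for products of such groups and free products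
with free groups, and for all groups which are locally built from them by order preserving actions.
-/

set_option autoImplicit false
open Classical

namespace Pool.Agent.Results.MP_0f25e6_al.PuncturedSurfaces

/-- The conclusion of Q1 for the group `G`. -/
def NoAnalyticZeroDivisors (G : Type) [Group G] : Prop :=
  ∀ α : G →₀ ℂ, α ≠ 0 → ∀ f : G → ℂ, Memℓp f 2 → f ≠ 0 →
    ∃ g : G, ∑ k ∈ α.support, α k * f (k⁻¹ * g) ≠ 0

/-- The generator `z_j = x_(2g+j)` of the free group on `x_0, …, x_(2g+r-1)`. -/
def pu (g r : ℕ) (j : Fin r) : FreeGroup (Fin (2 * g + r)) :=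
  FreeGroup.of (⟨2 * g + j, by omega⟩ : Fin (2 * g + r))

/-- The element `[x_0, x_1] [x_2, x_3] ⋯ [x_(2g-2), x_(2g-1)] z_0 z_1 ⋯ z_(r-1)` of the free group
on `x_0, …, x_(2g+r-1)`, where `[x, y] = x y x⁻¹ y⁻¹` and `z_j = x_(2g+j)`. -/
def bd (g r : ℕ) : FreeGroup (Fin (2 * g + r)) :=
  (List.ofFn fun i : Fin g =>
    FreeGroup.of (⟨2 * i, by omega⟩ : Fin (2 * g + r)) *
      FreeGroup.of (⟨2 * i + 1, by omega⟩ : Fin (2 * g + r)) *
      (FreeGroup.of (⟨2 * i, by omega⟩ : Fin (2 * g + r)))⁻¹ *
      (FreeGroup.of (⟨2 * i + 1, by omega⟩ : Fin (2 * g + r)))⁻¹).prod *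
  (List.ofFn (pu g r)).prod

/-- Groups of mapping classes. -/
inductive Base : (G : Type) → [Group G] → Prop
  /-- groups of automorphisms mapping `∂` to a conjugate, each `z_j` to a conjugate of some `z_j'`,
  with `j' = j` for `j` in the set `A`, which has more than `2 g` elements; for `A` the set of all
  `j` this includes the pure mapping class group of the surface of genus `g` with `r + 2`
  punctures. -/
  | punct (g r : ℕ) (A : Finset (Fin r)) (hA : 2 * g < A.card) (G : Type) [Group G]
      (α : G →* MulAut (FreeGroup (Fin (2 * g + r)))) (hα : Function.Injective α)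
      (hz : ∀ x j, ∃ j', (j ∈ A → j' = j) ∧ IsConj (pu g r j') (α x (pu g r j)))
      (hb : ∀ x, IsConj (bd g r) (α x (bd g r))) : Base G
  /-- groups of automorphisms fixing `∂` and mapping each `z_j` to a conjugate of some `z_j'`;
  this includes the mapping class group of the surface of genus `g` with one boundary component
  and `r` punctures -/
  | bdry (g r : ℕ) (G : Type) [Group G] (α : G →* MulAut (FreeGroup (Fin (2 * g + r))))
      (hα : Function.Injective α) (hz : ∀ x j, ∃ j', IsConj (pu g r j') (α x (pu g r j)))
      (hb : ∀ x, α x (bd g r) = bd g r) : Base G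
  /-- subgroups -/
  | sub (G H : Type) [Group G] [Group H] (f : H →* G) (hf : Function.Injective f)
      (hG : Base G) : Base H
  /-- direct products -/
  | prod (G H : Type) [Group G] [Group H] (hG : Base G) (hH : Base H) : Base (G × H)
  /-- free products with free groups -/
  | free (G : Type) [Group G] (m : ℕ) (hG : Base G) : Base (Monoid.Coprod G (FreeGroup (Fin m)))

/-- The group acts on some totally ordered set by order preserving maps, not all of which are the
identity. -/
def Acts (G : Type) [Group G] : Prop :=
  ∃ (Ω : Type) (_ : LinearOrder Ω) (_ : MulAction G Ω),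
    (∀ (g : G) (x y : Ω), x ≤ y → g • x ≤ g • y) ∧ ∃ (g : G) (ω : Ω), g • ω ≠ ω

/-- The groups covered by the theorem. -/
inductive Cls : (G : Type) → [Group G] → Prop
  /-- groups of mapping classes -/
  | base (G : Type) [Group G] (h : Base G) : Cls G
  /-- subgroups -/
  | sub (G H : Type) [Group G] [Group H] (f : H →* G) (hf : Function.Injective f)
      (hG : Cls G) : Cls H
  /-- a totally ordered set with an order preserving transitive action and stabilizers in the
  class, for example `G / H` for a normal subgroup `H` with left orderable quotient -/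
  | cosets (G : Type) [Group G] (H : Subgroup G) (o : LinearOrder (G ⧸ H))
      (ho : ∀ (g : G) (a b : G ⧸ H), a ≤ b → g • a ≤ g • b) (hH : Cls H) : Cls G
  /-- all nontrivial finitely generated subgroups act nontrivially on totally ordered sets or are
  in the class -/
  | locally (G : Type) [Group G]
      (h : ∀ K : Subgroup G, K.FG → K ≠ ⊥ → ¬ Acts K → Cls K) : Cls G

open Pool.Agent.H371.SB Pool.Agent.H371.SE Pool.Agent.H371.PM in
theorem cr {G : Type} [Group G] (h : Base G) : CR G 1 := by
  induction h with
  | punct g r A hA G α hα hz hb =>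
    have e2 : bd g r = dd g r := rfl
    refine ⟨one_pos, fun p hp => ⟨1, GR.mixed p (g := g) (r := r) A ?_ α hα ?_ ?_, 1,
      fun h => hp.out.one_lt.ne' (Nat.dvd_one.1 h), by simp⟩⟩
    · have h2 : 1 ≤ p - 1 := by have := hp.out.two_le; omega
      calc 2 * g < A.card := hA
        _ = A.card * 1 := (mul_one _).symm
        _ ≤ A.card * (p - 1) := Nat.mul_le_mul_left _ h2
    · intro x j
      obtain ⟨j', hj, hj'⟩ := hz x j
      exact ⟨j', hj, hj'⟩
    · intro x
      rw [← e2]
      exact hb x
  | bdry g r G α hα hz hb =>
    have e2 : bd g r = dd g r := rfl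
    refine ⟨one_pos, fun p hp => ⟨1, GR.bdry p (g := g) (r := r) α hα ?_ ?_, 1,
      fun h => hp.out.one_lt.ne' (Nat.dvd_one.1 h), by simp⟩⟩
    · intro x j
      obtain ⟨j', hj'⟩ := hz x j
      exact ⟨j', hj'⟩
    · intro x
      rw [← e2]
      exact hb x
  | sub G H f hf hG ih => exact CR.sub f hf ih
  | prod G H hG hH ih ih' => exact CR.prod ih ih'
  | free G m hG ih => exact CR.free m ih

/-- **The analytic zero divisor conjecture** for all groups `G` of the class `Cls`: `α * f ≠ 0` for
all nonzero `α` in `ℂ[G]` and all nonzero `f` in `ℓ²(G)`. -/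
theorem result : ∀ (G : Type) [Group G], Cls G → NoAnalyticZeroDivisors G := by
  intro G _ hG
  induction hG with
  | base G h =>
    refine Pool.Agent.H320.PG.azd_of_int fun v hv => ?_
    obtain ⟨z, hz⟩ := (cr h).main v hv
    exact ⟨z, by rw [← hz]; simp⟩
  | sub G H f hf hG ih => exact Pool.Agent.H320.PG.azd_of_injective f hf ih
  | cosets G H o ho hH ih =>
    refine (OrderedCosets.result.{0, 0}).2 G ?_
    intro K hK hKne
    by_cases hact : ∃ (k : K) (ω : G ⧸ H), k • ω ≠ ω
    · exact Or.inr ⟨G ⧸ H, o, inferInstance, fun g x y hxy => ho g x y hxy, hact⟩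
    · left
      push Not at hact
      have hle : ∀ k : K, (k : G) ∈ H := by
        intro k
        have h1 : ((k : G) • ((1 : G) : G ⧸ H)) = ((1 : G) : G ⧸ H) := hact k ((1 : G) : G ⧸ H)
        have h2 : (((k : G) * 1 : G) : G ⧸ H) = ((1 : G) : G ⧸ H) := h1
        rw [mul_one] at h2
        have h3 := QuotientGroup.eq.1 h2
        rw [mul_one] at h3
        exact inv_mem_iff.1 h3
      let f : K →* H := K.subtype.codRestrict H hle
      have hf : Function.Injective f := fun a b hab =>
        Subtype.ext (congrArg (fun w : H => (w : G)) hab)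
      exact Pool.Agent.H320.PG.azd_of_injective f hf ih
  | locally G h ih =>
    refine (OrderedCosets.result.{0, 0}).2 G ?_
    intro K hK hKne
    by_cases hact : Acts K
    · exact Or.inr hact
    · exact Or.inl (ih K hK hKne hact)

end Pool.Agent.Results.MP_0f25e6_al.PuncturedSurfaces
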